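import Mathlib
import Pool.Agent.NearOne652.CoreC

set_option autoImplicit false

open Finset

namespace Pool.Agent.Results.MP_60829e_nt.ComplexNearOne

open Pool.Agent.NearOne652

/-- No polynomial relation of degree `≤ δ` and length `≤ B` between the logarithms of the algebraic
numbers `1 + t_i / (D H)`, once `H` is larger than an explicit function of the other data. -/
theorem result (K : Type) [Field K] [NumberField K] (σ : K →+* ℂ)
    (k δ D H m : ℕ) (B : ℝ) (hD : D ≠ 0) (hDB : (D : ℝ) ≤ B)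
    (t : Fin k → K) (ht0 : ∀ i, t i ≠ 0) (htinj : Function.Injective t)
    (hti : ∀ i, IsIntegral ℤ (t i)) (htB : ∀ (φ : K →+* ℂ) i, ‖φ (t i)‖ ≤ B)
    (F : MvPolynomial (Fin k) K) (hF0 : F ≠ 0) (hδ : F.totalDegree ≤ δ)
    (hFi : ∀ a, IsIntegral ℤ (MvPolynomial.coeff a F))
    (hFB : ∀ φ : K →+* ℂ, ∑ a ∈ F.support, ‖φ (MvPolynomial.coeff a F)‖ ≤ B)
    (hm : m = ∑ i ∈ range (δ + 1), k ^ i)
    (hH : (4 * ((m.factorial : ℝ) * (m * δ + 1)) ^ δ * B ^ (m * δ + m + 2)) ^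
      (Module.finrank ℚ K + 1) < (H : ℝ)) :
    MvPolynomial.eval₂ σ (fun i => Complex.log (1 + σ (t i / D) / H)) F ≠ 0 := by
  intro hzero
  apply hF0
  have hD1 : (1 : ℝ) ≤ D := by exact_mod_cast Nat.one_le_iff_ne_zero.2 hD
  have hB : 1 ≤ B := by linarith
  have hB0 : 0 ≤ B := by linarith
  refine coreC σ k δ D H hD t ht0 htinj hti B hB htB F
    (coeff_eq_zero_of_totalDegree_le F δ hδ) hFi B hB hFB m hm _ rfl ?_ hzero
  refine lt_of_le_of_lt (pow_le_pow_left₀ (by positivity) ?_ _) hH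
  have h2 : (((m.factorial * D ^ m) ^ δ : ℕ) : ℝ) ≤ (m.factorial : ℝ) ^ δ * B ^ (m * δ) := by
    push_cast
    rw [mul_pow, ← pow_mul]
    exact mul_le_mul_of_nonneg_left (pow_le_pow_left₀ (by positivity) hDB _) (by positivity)
  calc 4 * (((m.factorial * D ^ m) ^ δ : ℕ) : ℝ) * B * ((m * δ + 1 : ℕ) : ℝ) ^ δ * B ^ (m + 1)
      ≤ 4 * ((m.factorial : ℝ) ^ δ * B ^ (m * δ)) * B * ((m * δ + 1 : ℕ) : ℝ) ^ δ *
        B ^ (m + 1) := by gcongr
    _ = 4 * ((m.factorial : ℝ) * (m * δ + 1)) ^ δ * B ^ (m * δ + m + 2) := by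
        push_cast
        rw [mul_pow, pow_add, pow_add, pow_add]
        ring

end Pool.Agent.Results.MP_60829e_nt.ComplexNearOne
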