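import Mathlib
import Pool.Agent.H351R3.Log.Gen

/-!
# Generic combinations of logarithms satisfy only linear relations modulo linear forms in logarithms

Let `𝓛(γ)` be the space of all linear combinations, with algebraic coefficients, of `1`, of finitely
many given complex numbers `γ_1, ..., γ_g` and of arbitrary logarithms of algebraic numbers.  For
all `l, k, g, D` there is `N₀` such that for any `N ≥ N₀` logarithms `λ_1, ..., λ_N` of algebraic
numbers which are linearly independent over `ℚ`, all `γ` and all complex `t_1, ..., t_l` without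
polynomial relation of degree `< D`, the `k × N` matrices `A` of algebraic numbers for which some
polynomial `P(T, Y)` of degree `≤ D`, not of the form `P₀(T) + c_1 Y_1 + ... + c_k Y_k`, has
`P(t, Aλ) ∈ 𝓛(γ)` lie on a hypersurface which does not contain all `0-1` matrices.
-/

namespace Pool.Agent.Results.MP_60829e_nt.GenericOnlyLinear

/-- The space of all linear combinations with algebraic coefficients of `1`, of the numbers `γ j` and
of logarithms of algebraic numbers. -/
noncomputable def LinForms {g : ℕ} (γ : Fin g → ℂ) : Submodule (algebraicClosure ℚ ℂ) ℂ :=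
  Submodule.span (algebraicClosure ℚ ℂ)
    ({1} ∪ {z : ℂ | IsAlgebraic ℚ (Complex.exp z)} ∪ Set.range γ)

/-- The numbers `t i` satisfy no nonzero polynomial relation of degree less than `D` with algebraic
coefficients. -/
def NoRelationBelow (D : ℕ) {l : ℕ} (t : Fin l → ℂ) : Prop :=
  ∀ P : MvPolynomial (Fin l) (algebraicClosure ℚ ℂ), P.totalDegree < D →
    MvPolynomial.aeval t P = 0 → P = 0

/-- Every polynomial `P(T, Y)` with algebraic coefficients and degree at most `D` which takes at
`(t, y)` a value in `LinForms γ` has the form `P₀(T) + ∑ j, c j * Y j`. -/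
def OnlyLinear (D : ℕ) {g l k : ℕ} (γ : Fin g → ℂ) (t : Fin l → ℂ) (y : Fin k → ℂ) : Prop :=
  ∀ P : MvPolynomial (Fin l ⊕ Fin k) (algebraicClosure ℚ ℂ), P.totalDegree ≤ D →
    MvPolynomial.aeval (Sum.elim t y) P ∈ LinForms γ →
    ∃ (P₀ : MvPolynomial (Fin l) (algebraicClosure ℚ ℂ)) (c : Fin k → algebraicClosure ℚ ℂ),
      P = MvPolynomial.rename Sum.inl P₀ +
        ∑ j, MvPolynomial.C (c j) * MvPolynomial.X (Sum.inr j)

open Pool.Agent.H351R3.Log Pool.Agent.H301R2.SSE MvPolynomial

theorem linForms_eq {g : ℕ} (γ : Fin g → ℂ) :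
    LinForms γ = (Lt ⊔ Submodule.span QB (Set.range γ) : Submodule QB ℂ) := by
  rw [LinForms, Lt, Submodule.span_union]

theorem decompose {l k : ℕ} (P : MvPolynomial (Fin l ⊕ Fin k) (algebraicClosure ℚ ℂ))
    (h : ∀ s ∈ P.support, Alw (spar (Fin k) (fun _ : Fin l => True)) s) :
    ∃ (P₀ : MvPolynomial (Fin l) (algebraicClosure ℚ ℂ)) (c : Fin k → algebraicClosure ℚ ℂ),
      P = rename Sum.inl P₀ + ∑ j, C (c j) * X (Sum.inr j) := by
  classical
  set c : Fin k → algebraicClosure ℚ ℂ := fun j => coeff (Finsupp.single (Sum.inr j) 1) P with hc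
  set Q := P - ∑ j, C (c j) * X (Sum.inr j) with hQ
  have hcoef : ∀ s, coeff s Q = coeff s P -
      ∑ j, c j * (if Finsupp.single (Sum.inr j) 1 = s then 1 else 0) := by
    intro s
    rw [hQ, coeff_sub, coeff_sum]
    simp only [coeff_C_mul, coeff_X]
  have hmem : Q ∈ Sq (algebraicClosure ℚ ℂ) (Fin l) (∅ : Finset (Fin k)) Q.totalDegree := by
    intro s hs
    have hz : ∀ j, s (Sum.inr j) = 0 := by
      by_cases h1 : ∃ j : Fin k, Finsupp.single (Sum.inr j) 1 = s
      · exfalso
        obtain ⟨j, rfl⟩ := h1
        have h2 := hcoef (Finsupp.single (Sum.inr j) 1)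
        rw [Finset.sum_eq_single j] at h2
        · rw [if_pos rfl, mul_one, hc, sub_self] at h2
          exact (MvPolynomial.mem_support_iff.1 hs) h2
        · intro i _ hij
          rw [if_neg, mul_zero]
          intro h3
          have := Finsupp.single_left_injective one_ne_zero h3
          exact hij (Sum.inr_injective this)
        · intro h3; exact absurd (Finset.mem_univ _) h3
      · push Not at h1
        have h2 := hcoef s
        rw [Finset.sum_eq_zero (fun j _ => by rw [if_neg (h1 j), mul_zero]), sub_zero] at h2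
        have h3 : s ∈ P.support := by
          rw [MvPolynomial.mem_support_iff, ← h2]
          exact MvPolynomial.mem_support_iff.1 hs
        rcases h s h3 with h4 | ⟨i, hi, h4⟩
        · intro j
          exact h4 (Sum.inr j) (fun h => h)
        · exfalso
          rcases i with i | j
          · exact hi trivial
          · exact h1 j h4.symm
    refine ⟨(totalDegree_le_iff_mem _ _).1 le_rfl s hs, ?_, fun j _ => hz j⟩
    intro j
    rw [hz j]
    exact Nat.zero_le _
  obtain ⟨P₀, hP₀, _⟩ := Sq_empty hmem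
  refine ⟨P₀, c, ?_⟩
  rw [← hP₀, hQ, sub_add_cancel]

open Classical in
/-- **Main result.** -/
theorem result (l k g D : ℕ) :
    ∃ N₀ : ℕ, ∀ N ≥ N₀, ∀ lam : Fin N → ℂ, (∀ i, IsAlgebraic ℚ (Complex.exp (lam i))) →
      LinearIndependent ℚ lam → ∀ (γ : Fin g → ℂ) (t : Fin l → ℂ), NoRelationBelow D t →
      ∃ Δ : MvPolynomial (Fin k × Fin N) (algebraicClosure ℚ ℂ),
        (∃ S : Fin k → Finset (Fin N), eval (fun p => if p.2 ∈ S p.1 then 1 else 0) Δ ≠ 0) ∧
        ∀ A : Fin k × Fin N → algebraicClosure ℚ ℂ, eval A Δ ≠ 0 →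
          OnlyLinear D γ t fun j => ∑ i, (A (j, i) : ℂ) * lam i := by
  obtain ⟨N₀, hN₀⟩ := key_tuples (κ := QB) (C := ℂ) k (Fin l) D (2 + g + g)
  refine ⟨N₀, fun N hN lam halg hli γ t ht => ?_⟩
  have hrank : Module.rank QB (Submodule.span QB (Set.range γ)) ≤ g := by
    refine (rank_span_le _).trans ?_
    refine Cardinal.mk_range_le.trans ?_
    simp
  set V : Submodule QB ℂ := Lt ⊔ Submodule.span QB (Set.range γ) with hVdef
  have hV := KBd_sup (κ := QB) (C := ℂ) Lt (Submodule.span QB (Set.range γ)) 2 g KBd_Lt hrank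
  have ht' : NLP (κ := QB) (C := ℂ) V (fun _ : Fin l => True) D t :=
    ⟨fun P _ _ s _ => Or.inl fun i hi => absurd trivial hi, fun P hP h0 => ht P hP h0⟩
  have hlamV : ∀ i, lam i ∈ V := fun i => Submodule.mem_sup_left (Lt_log (halg i))
  -- linear independence over the algebraic numbers
  have hliQ : LinearIndependent QB lam := by
    rw [Fintype.linearIndependent_iff]
    intro c hc i
    have h1 := Pool.Agent.H297R2.baker lam halg hli (fun i => (c i : ℂ))
      (fun i => (mem_algebraicClosure_iff).1 (c i).2) (by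
        rw [← hc]
        apply Finset.sum_congr rfl
        intro i _
        rfl) i
    exact_mod_cast h1
  set w : Fin N₀ → V := fun i => ⟨lam (Fin.castLE hN i), hlamV _⟩ with hw
  have hwli : LinearIndependent QB w := by
    have h1 : LinearIndependent QB (lam ∘ Fin.castLE hN) :=
      hliQ.comp _ (Fin.castLE_injective hN)
    exact LinearIndependent.of_comp V.subtype h1
  obtain ⟨S', hS'⟩ := hN₀ V hV (fun _ => True) t ht' w hwli
  set S : Fin k → Finset (Fin N) := fun j => (S' j).map (Fin.castLEEmb hN) with hS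
  obtain ⟨Δ, hΔ, hA⟩ := generic_of_exists (κ := QB) (C := ℂ) (l := l) (k := k) D V t lam hlamV
    (fun p => if p.2 ∈ S p.1 then 1 else 0) (by
      intro P hP hPV
      apply hS'.1 P hP
      convert hPV using 4
      rw [hS, hw]
      push_cast
      simp only [ite_smul, one_smul, zero_smul]
      funext j
      rw [Finset.sum_ite_mem, Finset.univ_inter, Finset.sum_map]
      rfl)
  refine ⟨Δ, ⟨S, hΔ⟩, fun A hAΔ P hP hPV => ?_⟩
  apply decompose P
  apply hA A hAΔ P hP
  rw [linForms_eq] at hPV
  exact hPV

end Pool.Agent.Results.MP_60829e_nt.GenericOnlyLinear
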