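import Mathlib
import Pool.Agent.H351R3.Log.Dens2

/-!
# Almost all tuples of logarithms satisfy only linear relations modulo linear forms in logarithms

Let `𝓛(γ)` be the space of all linear combinations, with algebraic coefficients, of `1`, of finitely
many given complex numbers `γ_1, ..., γ_g` and of arbitrary logarithms of algebraic numbers.  Let
`t_1, ..., t_l` be complex numbers which satisfy no polynomial relation of degree `< D` over the
algebraic numbers.  For almost all `k`-tuples `(n_1, ..., n_k)` of positive integers every polynomial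
`P(T, Y)` of degree `≤ D` with `P(t, log n_1, ..., log n_k) ∈ 𝓛(γ)` has the form
`P₀(T) + c_1 Y_1 + ... + c_k Y_k`, uniformly in `γ` and `t`.

The proof combines the strong six exponentials theorem of D. Roy (proved in
`Pool.Agent.H301R2.SSE`), Baker's theorem, multiplicative cubes in dense sets of integers
(`Pool.Agent.H297R2.Dense`), the linear algebra of bilinear maps along cubes (`CubeInj`, `Sq2`) and
the leading terms of evaluation determinants along cubes (`Fil`, `Key2`).
-/

namespace Pool.Agent.Results.MP_60829e_nt.OnlyLinearRelations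

/-- The space of all linear combinations with algebraic coefficients of `1`, of the numbers `γ j` and
of logarithms of algebraic numbers. -/
noncomputable def LinForms {g : ℕ} (γ : Fin g → ℂ) : Submodule (algebraicClosure ℚ ℂ) ℂ :=
  Submodule.span (algebraicClosure ℚ ℂ)
    ({1} ∪ {z : ℂ | IsAlgebraic ℚ (Complex.exp z)} ∪ Set.range γ)

/-- The numbers `t i` satisfy no nonzero polynomial relation of degree less than `D` with algebraic
coefficients. -/
def NoRelationBelow (D : ℕ) {l : ℕ} (t : Fin l → ℂ) : Prop :=
  ∀ P : MvPolynomial (Fin l) (algebraicClosure ℚ ℂ), P.totalDegree < D →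
    MvPolynomial.aeval t P = 0 → P = 0

/-- Every polynomial `P(T, Y)` with algebraic coefficients and degree at most `D` which takes at
`(t, y)` a value in `LinForms γ` has the form `P₀(T) + ∑ j, c j * Y j`. -/
def OnlyLinear (D : ℕ) {g l k : ℕ} (γ : Fin g → ℂ) (t : Fin l → ℂ) (y : Fin k → ℂ) : Prop :=
  ∀ P : MvPolynomial (Fin l ⊕ Fin k) (algebraicClosure ℚ ℂ), P.totalDegree ≤ D →
    MvPolynomial.aeval (Sum.elim t y) P ∈ LinForms γ →
    ∃ (P₀ : MvPolynomial (Fin l) (algebraicClosure ℚ ℂ)) (c : Fin k → algebraicClosure ℚ ℂ),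
      P = MvPolynomial.rename Sum.inl P₀ +
        ∑ j, MvPolynomial.C (c j) * MvPolynomial.X (Sum.inr j)

open Pool.Agent.H351R3.Log Pool.Agent.H301R2.SSE MvPolynomial

theorem linForms_eq {g : ℕ} (γ : Fin g → ℂ) :
    LinForms γ = (Lt ⊔ Submodule.span QB (Set.range γ) : Submodule QB ℂ) := by
  rw [LinForms, Lt, Submodule.span_union]

theorem decompose {l k : ℕ} (P : MvPolynomial (Fin l ⊕ Fin k) (algebraicClosure ℚ ℂ))
    (h : ∀ s ∈ P.support, Alw (spar (Fin k) (fun _ : Fin l => True)) s) :
    ∃ (P₀ : MvPolynomial (Fin l) (algebraicClosure ℚ ℂ)) (c : Fin k → algebraicClosure ℚ ℂ),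
      P = rename Sum.inl P₀ + ∑ j, C (c j) * X (Sum.inr j) := by
  classical
  set c : Fin k → algebraicClosure ℚ ℂ := fun j => coeff (Finsupp.single (Sum.inr j) 1) P with hc
  set Q := P - ∑ j, C (c j) * X (Sum.inr j) with hQ
  have hcoef : ∀ s, coeff s Q = coeff s P -
      ∑ j, c j * (if Finsupp.single (Sum.inr j) 1 = s then 1 else 0) := by
    intro s
    rw [hQ, coeff_sub, coeff_sum]
    simp only [coeff_C_mul, coeff_X]
  have hmem : Q ∈ Sq (algebraicClosure ℚ ℂ) (Fin l) (∅ : Finset (Fin k)) Q.totalDegree := by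
    intro s hs
    have hz : ∀ j, s (Sum.inr j) = 0 := by
      by_cases h1 : ∃ j : Fin k, Finsupp.single (Sum.inr j) 1 = s
      · exfalso
        obtain ⟨j, rfl⟩ := h1
        have h2 := hcoef (Finsupp.single (Sum.inr j) 1)
        rw [Finset.sum_eq_single j] at h2
        · rw [if_pos rfl, mul_one, hc, sub_self] at h2
          exact (MvPolynomial.mem_support_iff.1 hs) h2
        · intro i _ hij
          rw [if_neg, mul_zero]
          intro h3
          have := Finsupp.single_left_injective one_ne_zero h3
          exact hij (Sum.inr_injective this)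
        · intro h3; exact absurd (Finset.mem_univ _) h3
      · push Not at h1
        have h2 := hcoef s
        rw [Finset.sum_eq_zero (fun j _ => by rw [if_neg (h1 j), mul_zero]), sub_zero] at h2
        have h3 : s ∈ P.support := by
          rw [MvPolynomial.mem_support_iff, ← h2]
          exact MvPolynomial.mem_support_iff.1 hs
        rcases h s h3 with h4 | ⟨i, hi, h4⟩
        · intro j
          exact h4 (Sum.inr j) (fun h => h)
        · exfalso
          rcases i with i | j
          · exact hi trivial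
          · exact h1 j h4.symm
    refine ⟨(totalDegree_le_iff_mem _ _).1 le_rfl s hs, ?_, fun j _ => hz j⟩
    intro j
    rw [hz j]
    exact Nat.zero_le _
  obtain ⟨P₀, hP₀, _⟩ := Sq_empty hmem
  refine ⟨P₀, c, ?_⟩
  rw [← hP₀, hQ, sub_add_cancel]

open Classical in
/-- **Main result.** -/
theorem result (l k g D : ℕ) (ε : ℝ) (hε : 0 < ε) :
    ∃ x₀ : ℕ, ∀ x ≥ x₀, ∀ (γ : Fin g → ℂ) (t : Fin l → ℂ), NoRelationBelow D t →
      (((Fintype.piFinset fun _ : Fin k => Finset.Icc 1 x).filter fun n =>
        ¬ OnlyLinear D γ t fun i => (Real.log (n i) : ℂ)).card : ℝ) ≤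
      ε * (x : ℝ) ^ k := by
  obtain ⟨x₀, hx₀⟩ := dens_tuples2 k (Fin l) D (2 + g + g) ε hε
  refine ⟨x₀, fun x hx γ t ht => ?_⟩
  have hrank : Module.rank QB (Submodule.span QB (Set.range γ)) ≤ g := by
    refine (rank_span_le _).trans ?_
    refine Cardinal.mk_range_le.trans ?_
    simp
  have hV := KBd_sup (κ := QB) (C := ℂ) Lt (Submodule.span QB (Set.range γ)) 2 g KBd_Lt hrank
  have ht' : NLP (κ := QB) (C := ℂ) (Lt ⊔ Submodule.span QB (Set.range γ)) (fun _ : Fin l => True)
      D t :=
    ⟨fun P _ _ s _ => Or.inl fun i hi => absurd trivial hi, fun P hP h0 => ht P hP h0⟩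
  refine le_trans ?_ (hx₀ x hx _ le_sup_left hV (fun _ => True) t ht')
  have hsub : ((Fintype.piFinset fun _ : Fin k => Finset.Icc 1 x).filter fun n =>
        ¬ OnlyLinear D γ t fun i => (Real.log (n i) : ℂ)) ⊆
      (Fintype.piFinset fun _ : Fin k => Finset.Ioc 0 x).filter (fun n =>
        ¬ NLP (κ := QB) (C := ℂ) (Lt ⊔ Submodule.span QB (Set.range γ))
          (spar (Fin k) (fun _ : Fin l => True)) D
          (Sum.elim t (fun i => (Real.log (n i) : ℂ)))) := by
    intro n hn
    rw [Finset.mem_filter, Fintype.mem_piFinset] at hn ⊢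
    refine ⟨fun i => ?_, fun hN => hn.2 ?_⟩
    · have := hn.1 i
      rw [Finset.mem_Icc] at this
      rw [Finset.mem_Ioc]
      omega
    · intro P hP hPV
      rw [linForms_eq] at hPV
      exact decompose P (hN.1 P hP hPV)
  exact_mod_cast Finset.card_le_card hsub

end Pool.Agent.Results.MP_60829e_nt.OnlyLinearRelations
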