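import Pool.Agent.H196R3.QP2

/-!
# Among any five independent logarithms there are pairs without mixed quadratic relations

Let `𝓛(γ)` be the space of all linear combinations, with algebraic coefficients, of `1`, of `d` given
complex numbers `γ_1, ..., γ_d` and of arbitrary logarithms of algebraic numbers.  Let
`λ_0, ..., λ_(2d+4)` be logarithms of algebraic numbers which are linearly independent over the
rational numbers.  Then there are two distinct indices `i, j`, one of them less than `d + 3`, such
that `a λ_i ^ 2 + b λ_i λ_j + c λ_j ^ 2 ∈ 𝓛(γ)` with algebraic `a, b, c` is possible only for `b = 0`.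

For `d = 0` (five logarithms) the only excluded pair is `{3, 4}`; as the numbering is arbitrary, at
least two of the ten pairs have the property.  In other words, no conic defined over the algebraic
numbers whose equation contains the product of the coordinates passes through the point
`(λ_i, λ_j)`, and this remains true if arbitrary linear forms in logarithms are added to the
equation.

Proof: if all these pairs have relations `λ_i λ_j ≡ A_ij λ_i ^ 2 + A_ji λ_j ^ 2` modulo `𝓛(γ)`, choose
`w = ∑ w_i λ_i`, `i < d + 3`, such that `∑ A_ki w_i = 0` for the `d + 2` indices `k ≥ d + 3`; then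
the products `w u`, `u = ∑ u_j λ_j`, are in `𝓛(γ)` for all `u` in a space of dimension `d + 2`, so
`w` multiplies two independent `u` and `1` into the space of linear forms in logarithms. This
contradicts the strong six exponentials theorem of D. Roy (proved in the starting files
`Pool.Agent.H301R2.SSE`) and Baker's theorem (`Pool.Agent.H297R2`).
-/

set_option autoImplicit false

namespace Pool.Agent.Results.MP_60829e_nt.QuadricsThroughPairs

open Pool.Agent.H301R2.SSE Pool.Agent.H196R3.QP

/-- The space of all linear combinations with algebraic coefficients of `1`, of the numbers `γ j` and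
of logarithms of algebraic numbers. -/
noncomputable def LinForms {d : ℕ} (γ : Fin d → ℂ) : Submodule (algebraicClosure ℚ ℂ) ℂ :=
  Submodule.span (algebraicClosure ℚ ℂ)
    ({1} ∪ {z : ℂ | IsAlgebraic ℚ (Complex.exp z)} ∪ Set.range γ)

theorem linForms_eq {d : ℕ} (γ : Fin d → ℂ) :
    LinForms γ = (Lt ⊔ Submodule.span QB (Set.range γ) : Submodule QB ℂ) := by
  rw [LinForms, Lt, Submodule.span_union]

/-- **Main result.** -/
theorem result (d : ℕ) (l : Fin (2 * d + 5) → ℂ) (halg : ∀ j, IsAlgebraic ℚ (Complex.exp (l j)))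
    (hli : LinearIndependent ℚ l) (γ : Fin d → ℂ) :
    ∃ i j : Fin (2 * d + 5), i ≠ j ∧ i.val < d + 3 ∧
      ∀ a b c : ℂ, IsAlgebraic ℚ a → IsAlgebraic ℚ b → IsAlgebraic ℚ c →
        a * l i ^ 2 + b * (l i * l j) + c * l j ^ 2 ∈ LinForms γ → b = 0 := by
  obtain ⟨i, j, hij, hi, h⟩ := pairs d l halg hli γ
  refine ⟨i, j, hij, hi, fun a b c ha hb hc hmem => ?_⟩
  by_contra hb0
  have ha' : IsAlgebraic ℚ (-(a * b⁻¹)) := (ha.mul hb.inv).neg
  have hc' : IsAlgebraic ℚ (-(c * b⁻¹)) := (hc.mul hb.inv).neg
  apply h ⟨-(a * b⁻¹), mem_QB.mpr ha'⟩ ⟨-(c * b⁻¹), mem_QB.mpr hc'⟩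
  rw [← linForms_eq]
  have h1 := (LinForms γ).smul_mem (⟨b⁻¹, mem_QB.mpr hb.inv⟩ : QB) hmem
  rw [Algebra.smul_def] at h1
  have h2 : (algebraMap QB ℂ) (⟨b⁻¹, mem_QB.mpr hb.inv⟩ : QB) = b⁻¹ := rfl
  rw [h2] at h1
  have h3 : l i * l j - (-(a * b⁻¹) * l i ^ 2 + -(c * b⁻¹) * l j ^ 2) =
      b⁻¹ * (a * l i ^ 2 + b * (l i * l j) + c * l j ^ 2) := by
    field_simp
    ring
  show l i * l j - (-(a * b⁻¹) * l i ^ 2 + -(c * b⁻¹) * l j ^ 2) ∈ LinForms γ
  rw [h3]
  exact h1

end Pool.Agent.Results.MP_60829e_nt.QuadricsThroughPairs
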